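import Mathlib

set_option maxRecDepth 100000

namespace Pool.Agent.Results.MP_6c0529_co.TreesBeatCaterpillars

open SimpleGraph

/-! ## Definitions -/

/-- A semilabeled binary tree of size n: a finite tree in which every vertex has degree 1 or 3,
whose vertices of degree 1 (the leaves) are labeled bijectively by Fin n.
(As in the problem this is meant for n at least 2: the one-vertex tree has degree 0.) -/
structure BinTree (n : ℕ) where
  /-- the vertex set -/
  V : Type
  finite : Finite V
  /-- the tree -/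
  G : SimpleGraph V
  isTree : G.IsTree
  deg : ∀ v, (G.neighborSet v).ncard = 1 ∨ (G.neighborSet v).ncard = 3
  /-- the leaf with a given label -/
  leaf : Fin n → V
  leaf_inj : Function.Injective leaf
  leaf_iff : ∀ v, (∃ i, leaf i = v) ↔ (G.neighborSet v).ncard = 1

/-- The partition of the labels obtained by deleting the edges in S: two labels are equivalent
when the two leaves lie in the same component of what is left. -/
def BinTree.cut {n : ℕ} (T : BinTree n) (S : Set (Sym2 T.V)) : Setoid (Fin n) where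
  r i j := (T.G.deleteEdges S).Reachable (T.leaf i) (T.leaf j)
  iseqv := ⟨fun _ => Reachable.refl _, fun h => h.symm, fun h k => h.trans k⟩

/-- The convex characters of T: all partitions obtained by deleting a set of edges. -/
def BinTree.chars {n : ℕ} (T : BinTree n) : Set (Setoid (Fin n)) := {r | ∃ S, r = T.cut S}

/-- Caterpillars: at most two leaves, or deleting all leaves leaves a path. -/
def BinTree.IsCaterpillar {n : ℕ} (T : BinTree n) : Prop :=
  n ≤ 2 ∨ ∃ m : ℕ,
    Nonempty (T.G.induce {v | (T.G.neighborSet v).ncard ≠ 1} ≃g SimpleGraph.pathGraph m)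

/-- s_n: the least number of common convex characters of two semilabeled binary trees. -/
noncomputable def s (n : ℕ) : ℕ :=
  sInf {k | ∃ T F : BinTree n, k = (T.chars ∩ F.chars).ncard}

/-- c_n: the same for two caterpillars. -/
noncomputable def c (n : ℕ) : ℕ :=
  sInf {k | ∃ T F : BinTree n, T.IsCaterpillar ∧ F.IsCaterpillar ∧
    k = (T.chars ∩ F.chars).ncard}

/-! ## Bit masks and the finite computation -/

/-- bit mask of a Boolean function -/
def mk (b : Fin 7 → Bool) : ℕ :=
  (b 0).toNat + 2 * (b 1).toNat + 4 * (b 2).toNat + 8 * (b 3).toNat + 16 * (b 4).toNat +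
    32 * (b 5).toNat + 64 * (b 6).toNat

/-- labelling of Fin 7 with the two (disjoint) blocks x.1 and x.2 and singletons elsewhere -/
def lab (x : ℕ × ℕ) (a : Fin 7) : ℕ :=
  if x.1.testBit a then 100 else if x.2.testBit a then 200 else a

/-- number of elements of a mask -/
def pop (m : ℕ) : ℕ :=
  (m.testBit 0).toNat + (m.testBit 1).toNat + (m.testBit 2).toNat + (m.testBit 3).toNat +
    (m.testBit 4).toNat + (m.testBit 5).toNat + (m.testBit 6).toNat

lemma mk_aux : ∀ b0 b1 b2 b3 b4 b5 b6 : Bool,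
    (mk ![b0,b1,b2,b3,b4,b5,b6] < 128) ∧
    pop (mk ![b0,b1,b2,b3,b4,b5,b6]) =
      b0.toNat + b1.toNat + b2.toNat + b3.toNat + b4.toNat + b5.toNat + b6.toNat ∧
    ∀ i : Fin 7, (mk ![b0,b1,b2,b3,b4,b5,b6]).testBit i =
      (![b0,b1,b2,b3,b4,b5,b6] : Fin 7 → Bool) i := by
  decide +kernel

lemma eta7 (b : Fin 7 → Bool) : ![b 0, b 1, b 2, b 3, b 4, b 5, b 6] = b := by
  ext i; fin_cases i <;> rfl

lemma mk_lt (b : Fin 7 → Bool) : mk b < 128 := by
  have := (mk_aux (b 0) (b 1) (b 2) (b 3) (b 4) (b 5) (b 6)).1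
  rwa [eta7] at this

lemma mk_pop (b : Fin 7 → Bool) : pop (mk b) = ∑ i, (b i).toNat := by
  have := (mk_aux (b 0) (b 1) (b 2) (b 3) (b 4) (b 5) (b 6)).2.1
  rw [eta7] at this
  rw [this]
  simp [Fin.sum_univ_succ]
  ring

lemma mk_testBit (b : Fin 7 → Bool) (i : Fin 7) : (mk b).testBit i = b i := by
  have := (mk_aux (b 0) (b 1) (b 2) (b 3) (b 4) (b 5) (b 6)).2.2 i
  rwa [eta7] at this

/-- the 121 partitions with at most one nontrivial block -/
def L1 : List (ℕ × ℕ) := ((List.range 128).filter (fun B => pop B != 1)).map (fun B => (B, 0))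

/-- the 102 partitions with exactly two nontrivial blocks, on disjoint intervals of the standard
caterpillar -/
def L2 : List (ℕ × ℕ) :=
  [(3, 12), (3, 20), (3, 24), (3, 28), (3, 36), (3, 40), (3, 44), (3, 48), (3, 52), (3, 56),
   (3, 60), (3, 68), (3, 72), (3, 76), (3, 80), (3, 84), (3, 88), (3, 92), (3, 96),
   (3, 100), (3, 104), (3, 108), (3, 112), (3, 116), (3, 120), (3, 124), (5, 24), (5, 40),
   (5, 48), (5, 56), (5, 72), (5, 80), (5, 88), (5, 96), (5, 104), (5, 112), (5, 120),
   (6, 24), (6, 40), (6, 48), (6, 56), (6, 72), (6, 80), (6, 88), (6, 96), (6, 104),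
   (6, 112), (6, 120), (7, 24), (7, 40), (7, 48), (7, 56), (7, 72), (7, 80), (7, 88),
   (7, 96), (7, 104), (7, 112), (7, 120), (9, 48), (9, 80), (9, 96), (9, 112), (10, 48),
   (10, 80), (10, 96), (10, 112), (11, 48), (11, 80), (11, 96), (11, 112), (12, 48),
   (12, 80), (12, 96), (12, 112), (13, 48), (13, 80), (13, 96), (13, 112), (14, 48),
   (14, 80), (14, 96), (14, 112), (15, 48), (15, 80), (15, 96), (15, 112), (17, 96),
   (18, 96), (19, 96), (20, 96), (21, 96), (22, 96), (23, 96), (24, 96), (25, 96), (26, 96),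
   (27, 96), (28, 96), (29, 96), (30, 96), (31, 96)]

/-- masks with 2, 3, 4, 5 elements -/
def P2 : List ℕ :=
  [3, 5, 6, 9, 10, 12, 17, 18, 20, 24, 33, 34, 36, 40, 48, 65, 66, 68, 72, 80, 96]

def P3 : List ℕ :=
  [7, 11, 13, 14, 19, 21, 22, 25, 26, 28, 35, 37, 38, 41, 42, 44, 49, 50, 52, 56, 67, 69,
   70, 73, 74, 76, 81, 82, 84, 88, 97, 98, 100, 104, 112]

def P4 : List ℕ :=
  [15, 23, 27, 29, 30, 39, 43, 45, 46, 51, 53, 54, 57, 58, 60, 71, 75, 77, 78, 83, 85, 86,
   89, 90, 92, 99, 101, 102, 105, 106, 108, 113, 114, 116, 120]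

def P5 : List ℕ :=
  [31, 47, 55, 59, 61, 62, 79, 87, 91, 93, 94, 103, 107, 109, 110, 115, 117, 118, 121, 122,
   124]

/-- x.1 is inside E and x.2 outside -/
def chk1 (E : ℕ) (x : ℕ × ℕ) : Bool := (Nat.land x.1 E == x.1) && (Nat.land x.2 E == 0)

/-- E separates x.1 and x.2 -/
def chk2 (E : ℕ) (x : ℕ × ℕ) : Bool := chk1 E x || chk1 E (x.2, x.1)

/-- one of the four sets separates -/
def chk (E0 E1 E2 E3 : ℕ) (x : ℕ × ℕ) : Bool := chk2 E0 x || chk2 E1 x || chk2 E2 x || chk2 E3 x

/-- at least k elements of the list satisfy p -/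
def hasK (p : ℕ × ℕ → Bool) : ℕ → List (ℕ × ℕ) → Bool
  | 0, _ => true
  | _ + 1, [] => false
  | k + 1, x :: l => bif p x then hasK p k l else hasK p (k + 1) l

lemma hasK_sound (p : ℕ × ℕ → Bool) : ∀ (l : List (ℕ × ℕ)) (k : ℕ), hasK p k l = true →
    k ≤ (l.filter p).length := by
  intro l
  induction l with
  | nil => intro k h; cases k with
    | zero => simp
    | succ k => simp [hasK] at h
  | cons x l ih =>
    intro k h
    cases k with
    | zero => simp
    | succ k =>
      rw [hasK] at h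
      cases hp : p x with
      | true =>
        rw [hp] at h
        have := ih k h
        rw [List.filter_cons_of_pos hp]
        simp only [List.length_cons]
        omega
      | false =>
        rw [hp] at h
        have := ih (k + 1) h
        rw [List.filter_cons_of_neg (by simp [hp])]
        exact this

lemma comp : (P2.all fun E0 => P3.all fun E1 => (!(Nat.land E0 E1 == E0)) ||
    P4.all fun E2 => (!(Nat.land E1 E2 == E1)) || P5.all fun E3 => (!(Nat.land E2 E3 == E2)) ||
      hasK (chk E0 E1 E2 E3) 5 L2) = true := by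
  decide +kernel

lemma memP2 : ∀ E < 128, pop E = 2 → E ∈ P2 := by decide +kernel
lemma memP3 : ∀ E < 128, pop E = 3 → E ∈ P3 := by decide +kernel
lemma memP4 : ∀ E < 128, pop E = 4 → E ∈ P4 := by decide +kernel
lemma memP5 : ∀ E < 128, pop E = 5 → E ∈ P5 := by decide +kernel

lemma comp' {E0 E1 E2 E3 : ℕ} (h0 : E0 < 128) (h1 : E1 < 128) (h2 : E2 < 128) (h3 : E3 < 128)
    (p0 : pop E0 = 2) (p1 : pop E1 = 3) (p2 : pop E2 = 4) (p3 : pop E3 = 5)
    (l0 : Nat.land E0 E1 = E0) (l1 : Nat.land E1 E2 = E1) (l2 : Nat.land E2 E3 = E2) :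
    5 ≤ (L2.filter (chk E0 E1 E2 E3)).length := by
  apply hasK_sound
  have h := comp
  rw [List.all_eq_true] at h
  have h := h E0 (memP2 E0 h0 p0)
  rw [List.all_eq_true] at h
  have h := h E1 (memP3 E1 h1 p1)
  rw [l0, beq_self_eq_true, Bool.not_true, Bool.false_or, List.all_eq_true] at h
  have h := h E2 (memP4 E2 h2 p2)
  rw [l1, beq_self_eq_true, Bool.not_true, Bool.false_or, List.all_eq_true] at h
  have h := h E3 (memP5 E3 h3 p3)
  rw [l2, beq_self_eq_true, Bool.not_true, Bool.false_or] at h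
  exact h

/-- all ordered pairs -/
def pairs : List (Fin 7 × Fin 7) :=
  (List.finRange 7).flatMap (fun i => (List.finRange 7).map (fun j => (i, j)))

/-- the relation of a labelling as a list of bits -/
def code (x : ℕ × ℕ) : List Bool := pairs.map (fun p => decide (lab x p.1 = lab x p.2))

lemma code_nodup : ((L1 ++ L2).map code).Nodup := by decide +kernel

/-- the partition with the two blocks x.1, x.2 -/
def Phi (x : ℕ × ℕ) : Setoid (Fin 7) := Setoid.ker (lab x)

lemma Phi_iff (x : ℕ × ℕ) (a b : Fin 7) : (Phi x) a b ↔ lab x a = lab x b := Iff.rfl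

lemma Phi_nodup : ((L1 ++ L2).map Phi).Nodup := by
  classical
  have h : (((L1 ++ L2).map Phi).map
      (fun r : Setoid (Fin 7) => pairs.map (fun p => decide (r p.1 p.2)))).Nodup := by
    rw [List.map_map]
    have e : ((fun r : Setoid (Fin 7) => pairs.map (fun p => decide (r p.1 p.2))) ∘ Phi)
        = code := by
      funext x
      simp only [Function.comp_apply, code]
      apply List.map_congr_left
      intro p _
      simp only [Phi_iff]
    rw [e]
    exact code_nodup
  exact List.Nodup.of_map _ h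

lemma L1_length : L1.length = 121 := by decide +kernel

/-! ## Separation -/

/-- the nontrivial blocks of r occupy pairwise disjoint intervals of positions -/
def Sep (p : Fin 7 → Fin 5) (r : Setoid (Fin 7)) : Prop :=
  ∀ a b c d k, a ≠ b → c ≠ d → r a b → r c d → ¬ r a c → p a ≤ k → k ≤ p b → p c ≤ k →
    k ≤ p d → False

lemma lab_cases {x : ℕ × ℕ} {a b : Fin 7} (h : lab x a = lab x b) (hab : a ≠ b) :
    (x.1.testBit a = true ∧ x.1.testBit b = true ∧ lab x a = 100) ∨
    (x.2.testBit a = true ∧ x.2.testBit b = true ∧ lab x a = 200) := by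
  have ha := a.isLt
  have hb := b.isLt
  have hab' : (a : ℕ) ≠ b := fun e => hab (Fin.ext e)
  unfold lab at *
  split_ifs at * <;> simp_all <;> omega

lemma sep_one (q : Fin 7 → Fin 5) (B : ℕ) : Sep q (Phi (B, 0)) := by
  intro a b c d k hab hcd h1 h2 h3 _ _ _ _
  rw [Phi_iff] at h1 h2 h3
  rcases lab_cases h1 hab with ⟨_, _, e1⟩ | ⟨e1, _, _⟩
  · rcases lab_cases h2 hcd with ⟨_, _, e2⟩ | ⟨e2, _, _⟩
    · exact h3 (e1.trans e2.symm)
    · simp at e2
  · simp at e1

lemma sep_two (q : Fin 7 → Fin 5) (x : ℕ × ℕ) (k0 : ℕ)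
    (h : ((∀ a : Fin 7, x.1.testBit a = true → (q a : ℕ) ≤ k0) ∧
      (∀ a : Fin 7, x.2.testBit a = true → k0 < (q a : ℕ))) ∨
      ((∀ a : Fin 7, x.2.testBit a = true → (q a : ℕ) ≤ k0) ∧
      (∀ a : Fin 7, x.1.testBit a = true → k0 < (q a : ℕ)))) : Sep q (Phi x) := by
  intro a b c d k hab hcd h1 h2 h3 k1 k2 k3 k4
  rw [Phi_iff] at h1 h2 h3
  rw [Fin.le_def] at k1 k2 k3 k4
  rcases lab_cases h1 hab with ⟨a1, b1, e1⟩ | ⟨a1, b1, e1⟩
  · rcases lab_cases h2 hcd with ⟨c1, d1, e2⟩ | ⟨c1, d1, e2⟩
    · exact h3 (e1.trans e2.symm)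
    · rcases h with ⟨h5, h6⟩ | ⟨h5, h6⟩
      · have := h5 b b1; have := h6 c c1; omega
      · have := h5 d d1; have := h6 a a1; omega
  · rcases lab_cases h2 hcd with ⟨c1, d1, e2⟩ | ⟨c1, d1, e2⟩
    · rcases h with ⟨h5, h6⟩ | ⟨h5, h6⟩
      · have := h5 d d1; have := h6 a a1; omega
      · have := h5 b b1; have := h6 c c1; omega
    · exact h3 (e1.trans e2.symm)

/-- the mask of the leaves at position at most k -/
def pre (q : Fin 7 → Fin 5) (k : ℕ) : ℕ := mk (fun i => decide ((q i : ℕ) ≤ k))

lemma chk1_spec {q : Fin 7 → Fin 5} {k : ℕ} {x : ℕ × ℕ} (h : chk1 (pre q k) x = true) :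
    (∀ a : Fin 7, x.1.testBit a = true → (q a : ℕ) ≤ k) ∧
      (∀ a : Fin 7, x.2.testBit a = true → k < (q a : ℕ)) := by
  unfold chk1 at h
  rw [Bool.and_eq_true, beq_iff_eq, beq_iff_eq] at h
  obtain ⟨h1, h2⟩ := h
  constructor
  · intro a ha
    have : (x.1 &&& pre q k).testBit a = true := by
      rw [show x.1 &&& pre q k = x.1 from h1]; exact ha
    rw [Nat.testBit_land, Bool.and_eq_true] at this
    have h3 := this.2
    unfold pre at h3
    rw [mk_testBit] at h3
    simpa using h3
  · intro a ha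
    by_contra hlt
    have h3 : (x.2 &&& pre q k).testBit a = true := by
      rw [Nat.testBit_land, Bool.and_eq_true]
      refine ⟨ha, ?_⟩
      unfold pre
      rw [mk_testBit]
      simpa using hlt
    rw [show x.2 &&& pre q k = 0 from h2] at h3
    simp at h3

lemma chk2_sep {q : Fin 7 → Fin 5} {k : ℕ} {x : ℕ × ℕ} (h : chk2 (pre q k) x = true) :
    Sep q (Phi x) := by
  unfold chk2 at h
  rw [Bool.or_eq_true] at h
  rcases h with h | h
  · exact sep_two q x k (Or.inl (chk1_spec h))
  · exact sep_two q x k (Or.inr (chk1_spec h))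

lemma chk_sep {q : Fin 7 → Fin 5} {x : ℕ × ℕ}
    (h : chk (pre q 0) (pre q 1) (pre q 2) (pre q 3) x = true) : Sep q (Phi x) := by
  unfold chk at h
  rw [Bool.or_eq_true, Bool.or_eq_true, Bool.or_eq_true] at h
  rcases h with ((h | h) | h) | h <;> exact chk2_sep h

/-- positions of the leaves in the standard caterpillar -/
def std : Fin 7 → Fin 5 := ![0, 0, 1, 2, 3, 4, 4]

lemma std_pre : pre std 0 = 3 ∧ pre std 1 = 7 ∧ pre std 2 = 15 ∧ pre std 3 = 31 := by
  decide +kernel

lemma L2_std : ∀ x ∈ L2, chk 3 7 15 31 x = true := by decide +kernel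

lemma L2_sep {x : ℕ × ℕ} (hx : x ∈ L2) : Sep std (Phi x) := by
  apply chk_sep
  rw [std_pre.1, std_pre.2.1, std_pre.2.2.1, std_pre.2.2.2]
  exact L2_std x hx

lemma pre_land (q : Fin 7 → Fin 5) (k : ℕ) : Nat.land (pre q k) (pre q (k + 1)) = pre q k := by
  change pre q k &&& pre q (k + 1) = pre q k
  apply Nat.eq_of_testBit_eq
  intro i
  rw [Nat.testBit_land]
  by_cases hi : i < 7
  · have h1 := mk_testBit (fun i => decide ((q i : ℕ) ≤ k)) ⟨i, hi⟩
    have h2 := mk_testBit (fun i => decide ((q i : ℕ) ≤ k + 1)) ⟨i, hi⟩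
    simp only at h1 h2
    unfold pre
    rw [h1, h2]
    by_cases h3 : (q ⟨i, hi⟩ : ℕ) ≤ k
    · have h4 : (q ⟨i, hi⟩ : ℕ) ≤ k + 1 := by omega
      simp [h3, h4]
    · simp [h3]
  · have h1 : (pre q k).testBit i = false := by
      apply Nat.testBit_eq_false_of_lt
      calc pre q k < 128 := mk_lt _
        _ = 2 ^ 7 := by norm_num
        _ ≤ 2 ^ i := Nat.pow_le_pow_right (by norm_num) (by omega)
    rw [h1, Bool.false_and]

/-- same fibre sizes as the standard position function -/
def Fib (q : Fin 7 → Fin 5) : Prop :=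
  ∀ k, (Finset.univ.filter (fun i => q i = k)).card =
    (Finset.univ.filter (fun i => std i = k)).card

lemma fib_equiv {q : Fin 7 → Fin 5} (h : Fib q) : ∃ σ : Fin 7 ≃ Fin 7, ∀ i, std (σ i) = q i := by
  have e : ∀ k, Nonempty ({a // q a = k} ≃ {b // std b = k}) := by
    intro k
    apply Fintype.card_eq.mp
    rw [Fintype.card_subtype, Fintype.card_subtype]
    exact h k
  exact ⟨Equiv.ofFiberEquiv (fun k => (e k).some), fun i => Equiv.ofFiberEquiv_map _ i⟩

lemma pre_pop {q : Fin 7 → Fin 5} (h : Fib q) (k : ℕ) : pop (pre q k) = pop (pre std k) := by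
  obtain ⟨σ, hσ⟩ := fib_equiv h
  unfold pre
  rw [mk_pop, mk_pop]
  rw [← Equiv.sum_comp σ (fun i => (decide ((std i : ℕ) ≤ k)).toNat)]
  apply Finset.sum_congr rfl
  intro i _
  rw [hσ i]

instance : Finite (Setoid (Fin 7)) :=
  Finite.of_injective (fun r : Setoid (Fin 7) => (fun i j => r i j : Fin 7 → Fin 7 → Prop))
    (fun r s h => Setoid.ext (fun a b => by
      have := congrFun (congrFun h a) b
      exact Iff.of_eq this))

lemma lower {q : Fin 7 → Fin 5} (h : Fib q) : 126 ≤ {r | Sep std r ∧ Sep q r}.ncard := by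
  classical
  have p0 : pop (pre q 0) = 2 := by rw [pre_pop h, std_pre.1]; decide
  have p1 : pop (pre q 1) = 3 := by rw [pre_pop h, std_pre.2.1]; decide
  have p2 : pop (pre q 2) = 4 := by rw [pre_pop h, std_pre.2.2.1]; decide
  have p3 : pop (pre q 3) = 5 := by rw [pre_pop h, std_pre.2.2.2]; decide
  have h5 : 5 ≤ (L2.filter (chk (pre q 0) (pre q 1) (pre q 2) (pre q 3))).length :=
    comp' (mk_lt _) (mk_lt _) (mk_lt _) (mk_lt _) p0 p1 p2 p3 (pre_land q 0) (pre_land q 1)
      (pre_land q 2)
  set L := L1 ++ L2.filter (chk (pre q 0) (pre q 1) (pre q 2) (pre q 3)) with hL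
  have hlen : 126 ≤ (L.map Phi).length := by
    rw [List.length_map, hL, List.length_append, L1_length]
    omega
  have hnd : (L.map Phi).Nodup := by
    apply List.Nodup.sublist _ Phi_nodup
    apply List.Sublist.map
    exact List.Sublist.append (List.Sublist.refl _) List.filter_sublist
  have hsub : ((L.map Phi).toFinset : Set (Setoid (Fin 7))) ⊆ {r | Sep std r ∧ Sep q r} := by
    intro r hr
    simp only [List.coe_toFinset, List.mem_map] at hr
    obtain ⟨x, hx, rfl⟩ := hr
    rw [hL, List.mem_append] at hx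
    rcases hx with hx | hx
    · unfold L1 at hx
      rw [List.mem_map] at hx
      obtain ⟨B, _, rfl⟩ := hx
      exact ⟨sep_one _ _, sep_one _ _⟩
    · rw [List.mem_filter] at hx
      exact ⟨L2_sep hx.1, chk_sep hx.2⟩
  calc 126 ≤ (L.map Phi).length := hlen
    _ = (L.map Phi).toFinset.card := (List.toFinset_card_of_nodup hnd).symm
    _ = ((L.map Phi).toFinset : Set (Setoid (Fin 7))).ncard := (Set.ncard_coe_finset _).symm
    _ ≤ _ := Set.ncard_le_ncard hsub (Set.toFinite _)


/-! ## Caterpillars contain all separated partitions -/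

lemma sep_mem {T : BinTree 7} {p : Fin 7 → Fin 5} {v : Fin 5 → T.V}
    (hleaf : ∀ i, T.G.Adj (T.leaf i) (v (p i)))
    (hspine : ∀ k l : Fin 5, (k : ℕ) + 1 = l → T.G.Adj (v k) (v l))
    (vinj : Function.Injective v) (hne : ∀ i k, v k ≠ T.leaf i)
    {r : Setoid (Fin 7)} (hs : Sep p r) : r ∈ T.chars := by
  let f : T.V → Set (Fin 7) := fun x => {a | (∃ i, x = T.leaf i ∧ r i a) ∨
    (∃ k, x = v k ∧ ∃ b c, b ≠ c ∧ r a b ∧ r a c ∧ p b ≤ k ∧ k ≤ p c)}
  have fleaf : ∀ i a, a ∈ f (T.leaf i) ↔ r i a := by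
    intro i a
    constructor
    · rintro (⟨j, hj, h⟩ | ⟨k, hk, _⟩)
      · rw [T.leaf_inj hj]; exact h
      · exact absurd hk.symm (hne i k)
    · intro h; exact Or.inl ⟨i, rfl, h⟩
  have fv : ∀ i j, i ≠ j → r i j → ∀ k, p i ≤ k → k ≤ p j → f (v k) = f (T.leaf i) := by
    intro i j hij rij k hik hkj
    ext a
    rw [fleaf]
    constructor
    · rintro (⟨l, hl, _⟩ | ⟨k', hk', b, c, hbc, rab, rac, hb, hc⟩)
      · exact absurd hl (hne l k)
      · have hkk : k = k' := vinj hk'
        subst hkk
        by_contra hna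
        refine hs i j b c k hij hbc rij (r.trans' (r.symm' rab) rac) ?_ hik hkj hb hc
        intro h
        exact hna (r.trans' h (r.symm' rab))
    · intro h
      exact Or.inr ⟨k, rfl, i, j, hij, r.symm' h, r.trans' (r.symm' h) rij, hik, hkj⟩
  let S : Set (Sym2 T.V) := {e | ∃ x y, e = s(x, y) ∧ f x ≠ f y}
  have hK : ∀ x y, (T.G.deleteEdges S).Adj x y ↔ T.G.Adj x y ∧ f x = f y := by
    intro x y
    rw [deleteEdges_adj]
    constructor
    · rintro ⟨h1, h2⟩
      refine ⟨h1, ?_⟩
      by_contra h3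
      exact h2 ⟨x, y, rfl, h3⟩
    · rintro ⟨h1, h2⟩
      refine ⟨h1, ?_⟩
      rintro ⟨x', y', h3, h4⟩
      rw [Sym2.eq_iff] at h3
      rcases h3 with ⟨rfl, rfl⟩ | ⟨rfl, rfl⟩
      · exact h4 h2
      · exact h4 h2.symm
  have hconst : ∀ x y, (T.G.deleteEdges S).Reachable x y → f x = f y := by
    rintro x y ⟨w⟩
    induction w with
    | nil => rfl
    | cons h _ ih => exact ((hK _ _).mp h).2.trans ih
  have hfwd : ∀ i j, i ≠ j → r i j → p i ≤ p j →
      (T.G.deleteEdges S).Reachable (T.leaf i) (T.leaf j) := by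
    intro i j hij rij hle
    have hj : f (T.leaf i) = f (T.leaf j) := by
      ext a
      rw [fleaf, fleaf]
      exact ⟨fun h => r.trans' (r.symm' rij) h, fun h => r.trans' rij h⟩
    have h1 : (T.G.deleteEdges S).Reachable (T.leaf i) (v (p i)) := by
      apply Adj.reachable
      rw [hK]
      exact ⟨hleaf i, (fv i j hij rij (p i) le_rfl hle).symm⟩
    have h2 : ∀ n : ℕ, ∀ k : Fin 5, (k : ℕ) = (p i : ℕ) + n → k ≤ p j →
        (T.G.deleteEdges S).Reachable (v (p i)) (v k) := by
      intro n
      induction n with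
      | zero =>
        intro k hk _
        have : k = p i := Fin.ext (by simpa using hk)
        rw [this]
      | succ n ih =>
        intro k hk hkj
        have hlt : (p i : ℕ) + n < 5 := by have := k.isLt; omega
        have hkj' : (k : ℕ) ≤ (p j : ℕ) := hkj
        refine (ih ⟨(p i : ℕ) + n, hlt⟩ rfl ?_).trans ?_
        · rw [Fin.le_def]; simp only; omega
        · apply Adj.reachable
          rw [hK]
          refine ⟨hspine _ _ (by simp only; omega), ?_⟩
          rw [fv i j hij rij k (by rw [Fin.le_def]; omega) hkj,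
            fv i j hij rij ⟨(p i : ℕ) + n, hlt⟩ (by rw [Fin.le_def]; simp only; omega)
              (by rw [Fin.le_def]; simp only; omega)]
    have h3 : (T.G.deleteEdges S).Reachable (v (p j)) (T.leaf j) := by
      apply Adj.reachable
      rw [hK]
      exact ⟨(hleaf j).symm, (fv i j hij rij (p j) hle le_rfl).trans hj⟩
    have hle' : (p i : ℕ) ≤ (p j : ℕ) := hle
    exact (h1.trans (h2 ((p j : ℕ) - (p i : ℕ)) (p j) (by omega) le_rfl)).trans h3
  refine ⟨S, Setoid.ext (fun i j => ?_)⟩
  change r i j ↔ (T.G.deleteEdges S).Reachable (T.leaf i) (T.leaf j)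
  constructor
  · intro rij
    by_cases hij : i = j
    · rw [hij]
    · rcases le_total (p i) (p j) with hle | hle
      · exact hfwd i j hij rij hle
      · exact (hfwd j i (Ne.symm hij) (r.symm' rij) hle).symm
  · intro h
    have h1 := hconst _ _ h
    have h2 : j ∈ f (T.leaf j) := (fleaf j j).mpr (r.refl' j)
    rw [← h1, fleaf] at h2
    exact h2

/-- deg along a path: number of spine neighbours -/
lemma path_nbrs (m : ℕ) (k : Fin m) :
    {l : Fin m | (SimpleGraph.pathGraph m).Adj k l}.ncard =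
      (if (k : ℕ) + 1 < m then 1 else 0) + (if 0 < (k : ℕ) then 1 else 0) := by
  have e : {l : Fin m | (SimpleGraph.pathGraph m).Adj k l} =
      {l : Fin m | (k : ℕ) + 1 = l} ∪ {l : Fin m | (l : ℕ) + 1 = k} := by
    ext l
    simp only [Set.mem_ofPred_eq, Set.mem_union, SimpleGraph.pathGraph_adj]
  rw [e, Set.ncard_union_eq _ (Set.toFinite _) (Set.toFinite _)]
  · congr 1
    · split_ifs with h
      · have : {l : Fin m | (k : ℕ) + 1 = l} = {⟨(k : ℕ) + 1, h⟩} := by
          ext l
          simp only [Set.mem_ofPred_eq, Set.mem_singleton_iff, Fin.ext_iff]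
          exact eq_comm
        rw [this, Set.ncard_singleton]
      · have : {l : Fin m | (k : ℕ) + 1 = l} = ∅ := by
          ext l
          simp only [Set.mem_ofPred_eq, Set.mem_empty_iff_false, iff_false]
          have := l.isLt
          omega
        rw [this, Set.ncard_empty]
    · split_ifs with h
      · have hk := k.isLt
        have : {l : Fin m | (l : ℕ) + 1 = k} = {⟨(k : ℕ) - 1, by omega⟩} := by
          ext l
          simp only [Set.mem_ofPred_eq, Set.mem_singleton_iff, Fin.ext_iff]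
          omega
        rw [this, Set.ncard_singleton]
      · have : {l : Fin m | (l : ℕ) + 1 = k} = ∅ := by
          ext l
          simp only [Set.mem_ofPred_eq, Set.mem_empty_iff_false, iff_false]
          omega
        rw [this, Set.ncard_empty]
  · rw [Set.disjoint_left]
    intro l h1 h2
    simp only [Set.mem_ofPred_eq] at h1 h2
    omega

lemma third : ∀ i j : Fin 7, ∃ l : Fin 7, l ≠ i ∧ l ≠ j := by decide

lemma spine_exists (T : BinTree 7) (hT : T.IsCaterpillar) :
    ∃ (p : Fin 7 → Fin 5) (v : Fin 5 → T.V), (∀ i, T.G.Adj (T.leaf i) (v (p i))) ∧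
      (∀ k l : Fin 5, (k : ℕ) + 1 = l → T.G.Adj (v k) (v l)) ∧ Function.Injective v ∧
      (∀ i k, v k ≠ T.leaf i) ∧ Fib p := by
  classical
  have := T.finite
  rcases hT with h | ⟨m, ⟨φ⟩⟩
  · omega
  let w : Fin m → T.V := fun k => (φ.symm k : T.V)
  have winj : Function.Injective w := fun k l h => φ.symm.injective (Subtype.ext h)
  have wadj : ∀ k l, T.G.Adj (w k) (w l) ↔ (SimpleGraph.pathGraph m).Adj k l := by
    intro k l
    have := φ.symm.map_rel_iff (a := k) (b := l)
    rw [← this]
    exact Iff.rfl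
  have wdeg : ∀ k, (T.G.neighborSet (w k)).ncard = 3 := by
    intro k
    have h1 : (T.G.neighborSet (w k)).ncard ≠ 1 := (φ.symm k).2
    exact (T.deg (w k)).resolve_left h1
  have cover : ∀ x, (∃ i, T.leaf i = x) ∨ ∃ k, w k = x := by
    intro x
    by_cases hx : (T.G.neighborSet x).ncard = 1
    · exact Or.inl ((T.leaf_iff x).mpr hx)
    · right
      refine ⟨φ ⟨x, hx⟩, ?_⟩
      change ((φ.symm (φ ⟨x, hx⟩) : _) : T.V) = x
      rw [RelIso.symm_apply_apply]
  have wne : ∀ i k, w k ≠ T.leaf i := by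
    intro i k h
    have h1 := (T.leaf_iff (w k)).mp ⟨i, h.symm⟩
    rw [wdeg k] at h1
    omega
  have lnb : ∀ i, ∃ y, T.G.neighborSet (T.leaf i) = {y} := by
    intro i
    exact Set.ncard_eq_one.mp ((T.leaf_iff _).mp ⟨i, rfl⟩)
  have lw : ∀ i, ∃ k, T.G.Adj (T.leaf i) (w k) := by
    intro i
    obtain ⟨y, hy⟩ := lnb i
    have hadj : T.G.Adj (T.leaf i) y := by
      have : y ∈ T.G.neighborSet (T.leaf i) := by rw [hy]; rfl
      exact this
    rcases cover y with ⟨j, hj⟩ | ⟨k, hk⟩
    · exfalso
      obtain ⟨z, hz⟩ := lnb j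
      have hzi : z = T.leaf i := by
        have : T.leaf i ∈ T.G.neighborSet (T.leaf j) := by
          rw [hj]; exact hadj.symm
        rw [hz] at this
        exact this.symm
      have hcl : ∀ x y, T.G.Reachable x y → (x = T.leaf i ∨ x = T.leaf j) →
          (y = T.leaf i ∨ y = T.leaf j) := by
        rintro x y ⟨q⟩
        induction q with
        | nil => exact id
        | @cons a b c h _ ih =>
          intro hx
          apply ih
          rcases hx with rfl | rfl
          · right
            have : b ∈ T.G.neighborSet (T.leaf i) := h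
            rw [hy] at this
            rw [hj]
            exact this
          · left
            have : b ∈ T.G.neighborSet (T.leaf j) := h
            rw [hz] at this
            rw [← hzi]
            exact this
      have hex : ∃ l : Fin 7, l ≠ i ∧ l ≠ j := third i j
      obtain ⟨l, hl1, hl2⟩ := hex
      have hr : T.G.Reachable (T.leaf i) (T.leaf l) := T.isTree.connected.preconnected _ _
      rcases hcl _ _ hr (Or.inl rfl) with h | h
      · exact hl1 (T.leaf_inj h)
      · exact hl2 (T.leaf_inj h)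
    · exact ⟨k, by rw [hk]; exact hadj⟩
  choose p hp using lw
  have puniq : ∀ i k, T.G.Adj (T.leaf i) (w k) → p i = k := by
    intro i k h
    obtain ⟨y, hy⟩ := lnb i
    have h1 : w k ∈ T.G.neighborSet (T.leaf i) := h
    have h2 : w (p i) ∈ T.G.neighborSet (T.leaf i) := hp i
    rw [hy] at h1 h2
    exact winj (h2.trans h1.symm)
  have hfib : ∀ k : Fin m, (Finset.univ.filter (fun i => p i = k)).card +
      ((if (k : ℕ) + 1 < m then 1 else 0) + (if 0 < (k : ℕ) then 1 else 0)) = 3 := by
    intro k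
    rw [← path_nbrs m k, ← wdeg k]
    have e : T.G.neighborSet (w k) =
        T.leaf '' ((Finset.univ.filter (fun i => p i = k) : Finset (Fin 7)) : Set (Fin 7)) ∪
        w '' {l : Fin m | (SimpleGraph.pathGraph m).Adj k l} := by
      ext x
      constructor
      · intro hx
        have hx' : T.G.Adj (w k) x := hx
        rcases cover x with ⟨i, rfl⟩ | ⟨l, rfl⟩
        · left
          refine ⟨i, ?_, rfl⟩
          rw [Finset.mem_coe, Finset.mem_filter]
          exact ⟨Finset.mem_univ _, puniq i k hx'.symm⟩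
        · right
          exact ⟨l, (wadj k l).mp hx', rfl⟩
      · rintro (⟨i, hi, rfl⟩ | ⟨l, hl, rfl⟩)
        · rw [Finset.mem_coe, Finset.mem_filter] at hi
          have h1 := hp i
          rw [hi.2] at h1
          exact h1.symm
        · exact (wadj k l).mpr hl
    rw [e, Set.ncard_union_eq _ (Set.toFinite _) (Set.toFinite _),
      Set.ncard_image_of_injective _ T.leaf_inj, Set.ncard_image_of_injective _ winj,
      Set.ncard_coe_finset]
    rw [Set.disjoint_left]
    rintro x ⟨i, _, rfl⟩ ⟨l, _, hl⟩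
    exact wne i l hl
  have hsum : ∑ k : Fin m, (Finset.univ.filter (fun i => p i = k)).card = 7 := by
    have := Finset.card_eq_sum_card_fiberwise (s := (Finset.univ : Finset (Fin 7)))
      (t := (Finset.univ : Finset (Fin m))) (f := p) (fun _ _ => Finset.mem_univ _)
    rw [← this]
    rfl
  have hcard : ∀ k : Fin m, (Finset.univ.filter (fun i => p i = k)).card =
      3 - ((if (k : ℕ) + 1 < m then 1 else 0) + (if 0 < (k : ℕ) then 1 else 0)) := by
    intro k
    have := hfib k
    omega
  have hm7 : m ≤ 7 := by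
    calc m = ∑ k : Fin m, 1 := by simp
      _ ≤ ∑ k : Fin m, (Finset.univ.filter (fun i => p i = k)).card := by
          apply Finset.sum_le_sum
          intro k _
          rw [hcard k]
          split_ifs <;> omega
      _ = 7 := hsum
  have hsum' : ∑ k : Fin m,
      (3 - ((if (k : ℕ) + 1 < m then 1 else 0) + (if 0 < (k : ℕ) then 1 else 0))) = 7 := by
    rw [← hsum]
    exact Finset.sum_congr rfl (fun k _ => (hcard k).symm)
  have hm : m = 5 := by
    clear hfib hsum hcard hp puniq lnb cover wdeg wadj wne winj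
    clear p w φ
    interval_cases m
    all_goals first | rfl | (exfalso; revert hsum'; decide)
  subst hm
  refine ⟨p, w, hp, ?_, winj, wne, ?_⟩
  · intro k l hkl
    rw [wadj, SimpleGraph.pathGraph_adj]
    exact Or.inl hkl
  · intro k
    rw [hcard k]
    revert k
    decide

lemma caterpillar_lower (T F : BinTree 7) (hT : T.IsCaterpillar) (hF : F.IsCaterpillar) :
    126 ≤ (T.chars ∩ F.chars).ncard := by
  classical
  obtain ⟨p, v, p1, p2, p3, p4, p5⟩ := spine_exists T hT
  obtain ⟨q, w, q1, q2, q3, q4, q5⟩ := spine_exists F hF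
  obtain ⟨σ, hσ⟩ := fib_equiv p5
  have hq : Fib (q ∘ σ.symm) := by
    intro k
    rw [← q5 k]
    apply Finset.card_bij (fun i _ => σ.symm i)
    · intro i hi
      rw [Finset.mem_filter] at *
      exact ⟨Finset.mem_univ _, hi.2⟩
    · intro i _ j _ h
      exact σ.symm.injective h
    · intro j hj
      rw [Finset.mem_filter] at hj
      refine ⟨σ j, ?_, by simp⟩
      rw [Finset.mem_filter]
      exact ⟨Finset.mem_univ _, by simpa using hj.2⟩
  have h126 := lower hq
  have hinj : Function.Injective (Setoid.comap σ : Setoid (Fin 7) → Setoid (Fin 7)) := by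
    intro r s h
    apply Setoid.ext
    intro a b
    have h1 : (Setoid.comap σ r) (σ.symm a) (σ.symm b) ↔
        (Setoid.comap σ s) (σ.symm a) (σ.symm b) := by rw [h]
    simpa [Setoid.comap_rel] using h1
  have hsep : ∀ (g : Fin 7 → Fin 5) (r : Setoid (Fin 7)), Sep g r →
      Sep (g ∘ σ) (Setoid.comap σ r) := by
    intro g r h a b c d k hab hcd r1 r2 r3 k1 k2 k3 k4
    rw [Setoid.comap_rel] at r1 r2 r3
    exact h (σ a) (σ b) (σ c) (σ d) k (fun e => hab (σ.injective e))
      (fun e => hcd (σ.injective e)) r1 r2 r3 k1 k2 k3 k4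
  calc 126 ≤ {r | Sep std r ∧ Sep (q ∘ σ.symm) r}.ncard := h126
    _ = (Setoid.comap σ '' {r | Sep std r ∧ Sep (q ∘ σ.symm) r}).ncard :=
        (Set.ncard_image_of_injective _ hinj).symm
    _ ≤ (T.chars ∩ F.chars).ncard := by
        apply Set.ncard_le_ncard _ (Set.toFinite _)
        rintro _ ⟨r, ⟨h1, h2⟩, rfl⟩
        constructor
        · apply sep_mem p1 p2 p3 p4
          have h3 := hsep _ _ h1
          have h4 : std ∘ σ = p := funext hσ
          rw [h4] at h3
          exact h3
        · apply sep_mem q1 q2 q3 q4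
          have h3 := hsep _ _ h2
          have h4 : (q ∘ σ.symm) ∘ σ = q := by
            funext i
            simp
          rw [h4] at h3
          exact h3

/-! ## The two explicit trees -/

/-- adjacency from an edge list -/
def adjB (l : List (Fin 12 × Fin 12)) (a b : Fin 12) : Bool :=
  l.contains (a, b) || l.contains (b, a)

/-- the edges of the first tree: leaves 0..6, internal vertices 7..11, cherries 12, 36, 05 -/
def eT : List (Fin 12 × Fin 12) :=
  [(0, 10), (1, 7), (2, 7), (8, 7), (8, 11), (9, 8), (9, 4), (10, 9), (10, 5), (11, 3), (11, 6)]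

/-- the edges of the second tree, a caterpillar: spine 8, 7, 9, 11, 10 -/
def eF : List (Fin 12 × Fin 12) :=
  [(0, 8), (1, 10), (2, 7), (8, 7), (8, 3), (9, 7), (9, 4), (10, 11), (10, 5), (11, 9), (11, 6)]

/-- graph from an edge list -/
def gr (l : List (Fin 12 × Fin 12)) (h : ∀ a, adjB l a a = false) : SimpleGraph (Fin 12) where
  Adj a b := adjB l a b = true
  symm := ⟨by intro a b hab; unfold adjB at *; rw [Bool.or_comm]; exact hab⟩
  loopless := ⟨by intro a hab; rw [h a] at hab; exact absurd hab (by decide)⟩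

instance (l : List (Fin 12 × Fin 12)) (h : ∀ a, adjB l a a = false) :
    DecidableRel (gr l h).Adj := fun a b => inferInstanceAs (Decidable (adjB l a b = true))

lemma gr_deg (l : List (Fin 12 × Fin 12)) (h : ∀ a, adjB l a a = false) (v : Fin 12) :
    ((gr l h).neighborSet v).ncard = (Finset.univ.filter (fun w => adjB l v w = true)).card := by
  rw [← Set.ncard_coe_finset]
  congr 1
  ext w
  simp only [SimpleGraph.mem_neighborSet, Finset.coe_filter, Finset.mem_univ, true_and,
    Set.mem_ofPred_eq]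
  exact Iff.rfl

lemma gr_tree (l : List (Fin 12 × Fin 12)) (h : ∀ a, adjB l a a = false) (par : Fin 12 → Fin 12)
    (root : Fin 12) (hpar : ∀ v, v ≠ root → adjB l v (par v) = true)
    (hroot : ∀ v, par (par (par (par v))) = root)
    (hr : par root = root)
    (hcard : (Finset.univ.filter (fun p : Fin 12 × Fin 12 => adjB l p.1 p.2 = true)).card = 22) :
    (gr l h).IsTree := by
  rw [SimpleGraph.isTree_iff_connected_and_card]
  constructor
  · rw [SimpleGraph.connected_iff_exists_forall_reachable]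
    refine ⟨root, ?_⟩
    have step : ∀ v, (gr l h).Reachable v (par v) := by
      intro v
      by_cases hv : v = root
      · rw [hv, hr]
      · exact Adj.reachable (hpar v hv)
    intro v
    have h1 := (((step v).trans (step (par v))).trans (step (par (par v)))).trans
      (step (par (par (par v))))
    rw [hroot v] at h1
    exact h1.symm
  · rw [Nat.card_eq_fintype_card, Nat.card_eq_fintype_card, ← SimpleGraph.edgeFinset_card,
      Fintype.card_fin]
    have h1 := (gr l h).two_mul_card_edgeFinset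
    have h2 : (Finset.univ.filter (fun (p : Fin 12 × Fin 12) => (gr l h).Adj p.1 p.2)).card = 22 :=
      hcard
    have h3 : 2 * (gr l h).edgeFinset.card = 22 := h1.trans h2
    omega

lemma hT0 : ∀ a, adjB eT a a = false := by decide +kernel
lemma hF0 : ∀ a, adjB eF a a = false := by decide +kernel

/-- the embedding of the labels -/
def lf : Fin 7 → Fin 12 := ![0, 1, 2, 3, 4, 5, 6]

lemma lf_inj : Function.Injective lf := by decide +kernel

/-- first tree -/
def T0 : BinTree 7 where
  V := Fin 12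
  finite := inferInstance
  G := gr eT hT0
  isTree := gr_tree eT hT0 ![10, 7, 7, 11, 9, 10, 11, 8, 8, 8, 9, 8] 8 (by decide +kernel)
    (by decide +kernel) (by decide +kernel) (by decide +kernel)
  deg := by
    intro v
    rw [gr_deg]
    revert v
    decide +kernel
  leaf := lf
  leaf_inj := lf_inj
  leaf_iff := by
    intro v
    rw [gr_deg]
    revert v
    decide +kernel

/-- second tree -/
def F0 : BinTree 7 where
  V := Fin 12
  finite := inferInstance
  G := gr eF hF0
  isTree := gr_tree eF hF0 ![8, 10, 7, 8, 9, 10, 11, 9, 7, 9, 11, 9] 9 (by decide +kernel)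
    (by decide +kernel) (by decide +kernel) (by decide +kernel)
  deg := by
    intro v
    rw [gr_deg]
    revert v
    decide +kernel
  leaf := lf
  leaf_inj := lf_inj
  leaf_iff := by
    intro v
    rw [gr_deg]
    revert v
    decide +kernel

/-- the spine of the second tree -/
def sp : Fin 5 → Fin 12 := ![8, 7, 9, 11, 10]

lemma sp_inj : Function.Injective sp := by decide +kernel

lemma F0_cat : F0.IsCaterpillar := by
  right
  refine ⟨5, ?_⟩
  have hmem : ∀ k, ((gr eF hF0).neighborSet (sp k)).ncard ≠ 1 := by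
    intro k
    rw [gr_deg]
    revert k
    decide +kernel
  let g : Fin 5 → {v : Fin 12 | ((gr eF hF0).neighborSet v).ncard ≠ 1} :=
    fun k => ⟨sp k, hmem k⟩
  have hg : Function.Bijective g := by
    constructor
    · intro k l h
      exact sp_inj (congrArg Subtype.val h)
    · rintro ⟨v, hv⟩
      have hv' : ((gr eF hF0).neighborSet v).ncard ≠ 1 := hv
      rw [gr_deg] at hv'
      have h1 : ∀ v : Fin 12, (Finset.univ.filter (fun w => adjB eF v w = true)).card ≠ 1 →
          ∃ k, sp k = v := by decide +kernel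
      obtain ⟨k, hk⟩ := h1 v hv'
      exact ⟨k, Subtype.ext hk⟩
  have hadj : ∀ k l : Fin 5, adjB eF (sp k) (sp l) = true ↔ (k : ℕ) + 1 = l ∨ (l : ℕ) + 1 = k := by
    decide +kernel
  let ψ : SimpleGraph.pathGraph 5 ≃g
      (gr eF hF0).induce {v : Fin 12 | ((gr eF hF0).neighborSet v).ncard ≠ 1} :=
    { toEquiv := Equiv.ofBijective g hg
      map_rel_iff' := by
        intro k l
        rw [SimpleGraph.pathGraph_adj]
        exact hadj k l }
  exact ⟨ψ.symm⟩

/-! ## Quartets -/

lemma reach_split {V : Type} (K : SimpleGraph V) (side : V → Bool) (u w : V)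
    (h : ∀ x y, K.Adj x y → side x ≠ side y → (x = u ∧ y = w) ∨ (x = w ∧ y = u)) :
    ∀ x y, K.Reachable x y → side x ≠ side y → K.Reachable x u := by
  rintro x y ⟨q⟩
  induction q with
  | nil => intro h; exact absurd rfl h
  | @cons a b c hab _ ih =>
    intro hs
    by_cases h1 : side a = side b
    · have := ih (by rw [← h1]; exact hs)
      exact (Adj.reachable hab).trans this
    · rcases h a b hab h1 with ⟨rfl, _⟩ | ⟨_, rfl⟩
      · exact Reachable.refl _
      · exact Adj.reachable hab

lemma chars_split {T : BinTree 7} {r : Setoid (Fin 7)} (hr : r ∈ T.chars) (side : T.V → Bool)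
    (u w : T.V)
    (h : ∀ x y, T.G.Adj x y → side x ≠ side y → (x = u ∧ y = w) ∨ (x = w ∧ y = u))
    {a b c d : Fin 7} (h1 : r a b) (h2 : r c d) (h3 : ¬ r a c)
    (h4 : side (T.leaf a) ≠ side (T.leaf b)) : side (T.leaf c) = side (T.leaf d) := by
  obtain ⟨S, rfl⟩ := hr
  by_contra h5
  apply h3
  have h1' : (T.G.deleteEdges S).Reachable (T.leaf a) (T.leaf b) := h1
  have h2' : (T.G.deleteEdges S).Reachable (T.leaf c) (T.leaf d) := h2
  have hK : ∀ x y, (T.G.deleteEdges S).Adj x y → side x ≠ side y →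
      (x = u ∧ y = w) ∨ (x = w ∧ y = u) := by
    intro x y hxy
    exact h x y (deleteEdges_adj.mp hxy).1
  exact (reach_split _ side u w hK _ _ h1' h4).trans (reach_split _ side u w hK _ _ h2' h5).symm

/-- the splits of the internal edges: vertex mask of one side and the two ends of the edge -/
def sT : List (ℕ × Fin 12 × Fin 12) :=
  [(2 + 4 + 128, 8, 7), (8 + 64 + 2048, 8, 11), (1 + 16 + 32 + 512 + 1024, 9, 8),
    (1 + 32 + 1024, 10, 9)]

/-- the splits of the internal edges of the second tree -/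
def sF : List (ℕ × Fin 12 × Fin 12) :=
  [(1 + 8 + 256, 8, 7), (1 + 8 + 4 + 256 + 128, 9, 7), (2 + 32 + 64 + 1024 + 2048, 11, 9),
    (2 + 32 + 1024, 10, 11)]

/-- the quartet ab|cd is compatible with all splits in the list -/
def qt (l : List (ℕ × Fin 12 × Fin 12)) (a b c d : Fin 7) : Bool :=
  l.all (fun t => !((t.1.testBit (lf a) != t.1.testBit (lf b)) &&
    (t.1.testBit (lf c) != t.1.testBit (lf d))))

lemma sT_split : ∀ t ∈ sT, ∀ x y : Fin 12, adjB eT x y = true → t.1.testBit x ≠ t.1.testBit y →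
    (x = t.2.1 ∧ y = t.2.2) ∨ (x = t.2.2 ∧ y = t.2.1) := by decide +kernel

lemma sF_split : ∀ t ∈ sF, ∀ x y : Fin 12, adjB eF x y = true → t.1.testBit x ≠ t.1.testBit y →
    (x = t.2.1 ∧ y = t.2.2) ∨ (x = t.2.2 ∧ y = t.2.1) := by decide +kernel

/-- the quartets of both trees -/
def Q (a b c d : Fin 7) : Bool := qt sT a b c d && qt sF a b c d

lemma common_quartet {r : Setoid (Fin 7)} (hT : r ∈ T0.chars) (hF : r ∈ F0.chars)
    {a b c d : Fin 7} (h1 : r a b) (h2 : r c d) (h3 : ¬ r a c) : Q a b c d = true := by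
  unfold Q qt
  rw [Bool.and_eq_true, List.all_eq_true, List.all_eq_true]
  constructor
  · intro t ht
    by_contra hc
    simp only [Bool.not_eq_true', Bool.and_eq_false_iff, bne_eq_false_iff_eq, not_or] at hc
    exact hc.2 (chars_split hT (fun x : Fin 12 => t.1.testBit x) t.2.1 t.2.2 (sT_split t ht)
      h1 h2 h3 hc.1)
  · intro t ht
    by_contra hc
    simp only [Bool.not_eq_true', Bool.and_eq_false_iff, bne_eq_false_iff_eq, not_or] at hc
    exact hc.2 (chars_split hF (fun x : Fin 12 => t.1.testBit x) t.2.1 t.2.2 (sF_split t ht)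
      h1 h2 h3 hc.1)

/-- a quartet with four different leaves -/
def Q4 (a b c d : Fin 7) : Bool :=
  (a != b) && (c != d) && (a != c) && (a != d) && (b != c) && (b != d) && Q a b c d

lemma Q4_unique : ∀ a b c d, Q4 a b c d = true → ∀ x y, Q4 a b x y = true →
    (x = c ∧ y = d) ∨ (x = d ∧ y = c) := by decide +kernel

lemma Q4_unique' : ∀ a b c d, Q4 a b c d = true → ∀ x y, Q4 x y c d = true →
    (x = a ∧ y = b) ∨ (x = b ∧ y = a) := by decide +kernel

/-- the four common quartets -/
def L4 : List (ℕ × ℕ) := [(17, 66), (12, 48), (9, 6), (34, 72)]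

lemma Q4_list : ∀ a b c d, Q4 a b c d = true → ∃ X ∈ L4, ∀ x y : Fin 7,
    (x = y ∨ (x = a ∧ y = b) ∨ (x = b ∧ y = a) ∨ (x = c ∧ y = d) ∨ (x = d ∧ y = c)) ↔
      lab X x = lab X y := by decide +kernel

lemma pop_ne_one : ∀ B < 128, (∀ i : Fin 7, B.testBit i = true →
    ∃ j : Fin 7, j ≠ i ∧ B.testBit j = true) → pop B ≠ 1 := by decide +kernel

lemma common_cases {r : Setoid (Fin 7)} (hT : r ∈ T0.chars) (hF : r ∈ F0.chars) :
    ∃ X ∈ L1 ++ L4, r = Phi X := by
  classical
  by_cases hex : ∃ a b c d, a ≠ b ∧ c ≠ d ∧ r a b ∧ r c d ∧ ¬ r a c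
  · obtain ⟨a, b, c, d, hab, hcd, r1, r2, r3⟩ := hex
    have key : ∀ {a b c d : Fin 7}, a ≠ b → c ≠ d → r a b → r c d → ¬ r a c →
        Q4 a b c d = true := by
      intro a b c d hab hcd r1 r2 r3
      have hQ := common_quartet hT hF r1 r2 r3
      have h1 : a ≠ c := fun e => r3 (e ▸ r.refl' a)
      have h2 : a ≠ d := fun e => r3 (by rw [e]; exact r.symm' r2)
      have h3 : b ≠ c := fun e => r3 (by rw [← e]; exact r1)
      have h4 : b ≠ d := fun e => r3 (r.trans' r1 (by rw [e]; exact r.symm' r2))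
      unfold Q4
      simp only [Bool.and_eq_true, bne_iff_ne]
      exact ⟨⟨⟨⟨⟨⟨hab, hcd⟩, h1⟩, h2⟩, h3⟩, h4⟩, hQ⟩
    have hQ := key hab hcd r1 r2 r3
    obtain ⟨X, hX, hX'⟩ := Q4_list a b c d hQ
    refine ⟨X, List.mem_append_right _ hX, ?_⟩
    apply Setoid.ext
    intro x y
    rw [Phi_iff, ← hX' x y]
    constructor
    · intro rxy
      by_cases hxy : x = y
      · exact Or.inl hxy
      · right
        by_cases hax : r a x
        · have h1 := key hxy hcd rxy r2 (fun h => r3 (r.trans' hax h))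
          rcases Q4_unique' a b c d hQ x y h1 with h | h
          · exact Or.inl h
          · exact Or.inr (Or.inl h)
        · have h1 := key hab hxy r1 rxy hax
          rcases Q4_unique a b c d hQ x y h1 with h | h
          · exact Or.inr (Or.inr (Or.inl h))
          · exact Or.inr (Or.inr (Or.inr h))
    · rintro (rfl | ⟨rfl, rfl⟩ | ⟨rfl, rfl⟩ | ⟨rfl, rfl⟩ | ⟨rfl, rfl⟩)
      · exact r.refl' _
      · exact r1
      · exact r.symm' r1
      · exact r2
      · exact r.symm' r2
  · push Not at hex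
    refine ⟨(mk (fun i => decide (∃ j, j ≠ i ∧ r i j)), 0), List.mem_append_left _ ?_, ?_⟩
    · unfold L1
      rw [List.mem_map]
      refine ⟨_, ?_, rfl⟩
      rw [List.mem_filter, List.mem_range]
      refine ⟨mk_lt _, ?_⟩
      rw [bne_iff_ne]
      apply pop_ne_one _ (mk_lt _)
      intro i hi
      rw [mk_testBit, decide_eq_true_eq] at hi
      obtain ⟨j, hj, rij⟩ := hi
      refine ⟨j, hj, ?_⟩
      rw [mk_testBit, decide_eq_true_eq]
      exact ⟨i, Ne.symm hj, r.symm' rij⟩
    · apply Setoid.ext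
      intro x y
      rw [Phi_iff]
      constructor
      · intro rxy
        by_cases hxy : x = y
        · rw [hxy]
        · have h1 : (mk (fun i => decide (∃ j, j ≠ i ∧ r i j))).testBit x = true := by
            rw [mk_testBit, decide_eq_true_eq]
            exact ⟨y, Ne.symm hxy, rxy⟩
          have h2 : (mk (fun i => decide (∃ j, j ≠ i ∧ r i j))).testBit y = true := by
            rw [mk_testBit, decide_eq_true_eq]
            exact ⟨x, hxy, r.symm' rxy⟩
          unfold lab
          rw [if_pos h1, if_pos h2]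
      · intro h
        by_cases hxy : x = y
        · rw [hxy]
        · rcases lab_cases h hxy with ⟨h1, h2, _⟩ | ⟨h1, _, _⟩
          · simp only at h1 h2
            rw [mk_testBit, decide_eq_true_eq] at h1 h2
            obtain ⟨x', hx', rx⟩ := h1
            obtain ⟨y', hy', ry⟩ := h2
            exact hex x x' y y' (Ne.symm hx') (Ne.symm hy') rx ry
          · simp at h1

lemma upper : (T0.chars ∩ F0.chars).ncard ≤ 125 := by
  classical
  have hsub : T0.chars ∩ F0.chars ⊆ (((L1 ++ L4).map Phi).toFinset : Set (Setoid (Fin 7))) := by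
    rintro r ⟨hT, hF⟩
    obtain ⟨X, hX, rfl⟩ := common_cases hT hF
    simp only [List.coe_toFinset, List.mem_map]
    exact ⟨X, hX, rfl⟩
  calc (T0.chars ∩ F0.chars).ncard
      ≤ (((L1 ++ L4).map Phi).toFinset : Set (Setoid (Fin 7))).ncard :=
        Set.ncard_le_ncard hsub (Set.toFinite _)
    _ = ((L1 ++ L4).map Phi).toFinset.card := Set.ncard_coe_finset _
    _ ≤ ((L1 ++ L4).map Phi).length := List.toFinset_card_le _
    _ = 125 := by
        rw [List.length_map, List.length_append, L1_length]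
        rfl

/-- Two semilabeled binary trees of size 7 can have 125 common convex characters, but any two
caterpillars of size 7 have at least 126. -/
theorem result : s 7 ≤ 125 ∧ 126 ≤ c 7 ∧ ¬ ∀ n : ℕ, 1 ≤ n → s n = c n := by
  have h1 : s 7 ≤ 125 := by
    refine le_trans (Nat.sInf_le ⟨T0, F0, rfl⟩) upper
  have h2 : 126 ≤ c 7 := by
    have hne : {k | ∃ T F : BinTree 7, T.IsCaterpillar ∧ F.IsCaterpillar ∧
        k = (T.chars ∩ F.chars).ncard}.Nonempty := ⟨_, F0, F0, F0_cat, F0_cat, rfl⟩
    obtain ⟨T, F, hT, hF, hk⟩ := Nat.sInf_mem hne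
    have h3 := caterpillar_lower T F hT hF
    rw [← hk] at h3
    exact h3
  refine ⟨h1, h2, ?_⟩
  intro h
  have h3 := h 7 (by norm_num)
  omega

end Pool.Agent.Results.MP_6c0529_co.TreesBeatCaterpillars
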